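import Mathlib
import Pool.Agent.P.MP_807794_lc.WeakDiamond

set_option autoImplicit false

open Cardinal Ordinal Set

namespace Pool.Agent.Results.MP_807794_lc.StationaryAntichain

universe u

/-- Height of a node: its rank for the well-founded order (in a tree, the order type of the
set of its predecessors). -/
noncomputable def ht {T : Type u} [PartialOrder T] [WellFoundedLT T] (t : T) : Ordinal.{u} :=
  IsWellFounded.rank (· < ·) t

/-- Aronszajn tree: predecessors of a node form a (well-ordered) chain, the height is `ω₁`,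
levels are countable and there is no uncountable chain. -/
structure IsAronszajn (T : Type u) [PartialOrder T] [WellFoundedLT T] : Prop where
  chain_Iio : ∀ t : T, IsChain (· ≤ ·) (Iio t)
  ht_lt : ∀ t : T, ht t < ω₁
  level_nonempty : ∀ α : Ordinal.{u}, α < ω₁ → ∃ t : T, ht t = α
  level_countable : ∀ α : Ordinal.{u}, {t : T | ht t = α}.Countable
  chain_countable : ∀ B : Set T, IsChain (· ≤ ·) B → B.Countable

/-- Ladder system: for each countable limit `α`, `C α` is a cofinal subset of `α` of type `ω`. -/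
def IsLadderSystem (C : Ordinal.{u} → Set Ordinal.{u}) : Prop :=
  ∀ α : Ordinal.{u}, α < ω₁ → Order.IsSuccLimit α →
    C α ⊆ Iio α ∧ (∀ β < α, ∃ ξ ∈ C α, β ≤ ξ) ∧ Nonempty (C α ≃o ℕ)

/-- The colouring `f` (with `f α ξ` the colour of `ξ ∈ C α`) is monochromatic. -/
def IsMonochromatic (C : Ordinal.{u} → Set Ordinal.{u}) (f : Ordinal.{u} → Ordinal.{u} → ℕ) :
    Prop :=
  ∀ α : Ordinal.{u}, α < ω₁ → Order.IsSuccLimit α → ∃ n : ℕ, ∀ ξ ∈ C α, f α ξ = n

/-- Subtree: nonempty, downward closed and pruned. -/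
def IsSubtree {T : Type u} [PartialOrder T] [WellFoundedLT T] (S : Set T) : Prop :=
  S.Nonempty ∧ IsLowerSet S ∧
    ∀ s ∈ S, ∀ β : Ordinal.{u}, β < ω₁ → ∃ t ∈ S, s ≤ t ∧ β ≤ ht t

/-- `f` has a `T`-uniformization: a map `φ` on a subtree `S` such that for `s ∈ S` of limit
height `α`, only finitely many `ξ ∈ C α` have `φ (s ↾ ξ) ≠ f α ξ`. -/
def HasUniformization (T : Type u) [PartialOrder T] [WellFoundedLT T]
    (C : Ordinal.{u} → Set Ordinal.{u}) (f : Ordinal.{u} → Ordinal.{u} → ℕ) : Prop :=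
  ∃ S : Set T, IsSubtree S ∧ ∃ φ : S → ℕ, ∀ s ∈ S, Order.IsSuccLimit (ht s) →
    {ξ ∈ C (ht s) | ∃ v : S, v.1 < s ∧ ht v.1 = ξ ∧ φ v ≠ f (ht s) ξ}.Finite

theorem ht_strictMono {T : Type u} [PartialOrder T] [WellFoundedLT T] :
    StrictMono (ht : T → Ordinal.{u}) := WellFoundedLT.rank_strictMono

theorem exists_pred {T : Type u} [PartialOrder T] [WellFoundedLT T] (t : T) :
    ∀ ξ < ht t, ∃ v < t, ht v = ξ := by
  induction t using WellFoundedLT.induction with
  | ind t ih =>
    intro ξ hξ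
    rw [ht, IsWellFounded.rank_eq, Ordinal.lt_iSup_iff] at hξ
    obtain ⟨⟨b, hb⟩, hξ⟩ := hξ
    rw [Order.lt_succ_iff] at hξ
    obtain rfl | hξ := hξ.eq_or_lt
    · exact ⟨b, hb, rfl⟩
    · obtain ⟨v, hv, hvξ⟩ := ih b hb ξ hξ
      exact ⟨v, hv.trans hb, hvξ⟩

theorem isClub_limits : IsClub {a : Iio (ω₁ : Ordinal.{u}) | Order.IsSuccLimit a.1} := by
  refine ⟨fun s hs hne _ a ha => ?_, fun a => ?_⟩
  · obtain ⟨b, hb⟩ := hne
    refine ⟨fun hmin => (hs hb).not_isMin fun c _ => ?_, fun c hc => ?_⟩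
    · exact (show b.1 ≤ a.1 from ha.1 hb).trans (hmin (zero_le)) |>.trans (zero_le)
    · have hc1 : c < ω₁ := hc.lt.trans a.2
      obtain ⟨d, hd, hcd⟩ := (lt_isLUB_iff ha).1 (show (⟨c, hc1⟩ : Iio (ω₁ : Ordinal.{u})) < a
        from hc.lt)
      have hda : d.1 = a.1 := le_antisymm (ha.1 hd) (hc.ge_of_gt hcd)
      exact (hs hd).isSuccPrelimit c (hda ▸ hc)
  · have h1 : a.1 + ω < ω₁ := by
      have := a.2
      rw [mem_Iio, lt_omega_iff_card_lt] at this
      rw [lt_omega_iff_card_lt, card_add, card_omega0]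
      exact add_lt_of_lt (aleph0_le_aleph 1) this aleph0_lt_aleph_one
    exact ⟨⟨a.1 + ω, h1⟩, isSuccLimit_add _ isSuccLimit_omega0, show a.1 ≤ a.1 + ω from
      le_self_add⟩

/-- Under CH, an Aronszajn tree on which every monochromatic `ω`-colouring of some ladder system
has a uniformization contains a stationary antichain. -/
theorem result (hCH : (𝔠 : Cardinal.{u}) = ℵ₁)
    (T : Type u) [PartialOrder T] [WellFoundedLT T] (hT : IsAronszajn T)
    (C : Ordinal.{u} → Set Ordinal.{u}) (hC : IsLadderSystem C)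
    (hunif : ∀ f, IsMonochromatic C f → HasUniformization T C f) :
    ∃ A : Set T, IsAntichain (· ≤ ·) A ∧
      IsStationary {α : Iio (ω₁ : Ordinal.{u}) | ∃ a ∈ A, ht a = α.1} := by
  classical
  by_contra hno
  push Not at hno
  have : Nonempty (Iio (ω₁ : Ordinal.{u})) := ⟨⟨0, omega_pos 1⟩⟩
  have : NoMaxOrder (Iio (ω₁ : Ordinal.{u})) :=
    (isSuccLimit_omega 1).isSuccPrelimit.noMaxOrder_Iio
  have : Nonempty T := (hT.level_nonempty 0 (omega_pos 1)).nonempty
  have hcof : Order.cof (Iio (ω₁ : Ordinal.{u})) ≠ ℵ₀ := by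
    rw [Ordinal.cof_Iio, ← lift_cof, cof_omega_one]
    simp [aleph0_lt_aleph_one.ne']
  have hcard : #(Iio (ω₁ : Ordinal.{u})) = ℵ₁ := by
    rw [Cardinal.mk_Iio_ordinal, card_omega]
    simp
  let h : T → Iio (ω₁ : Ordinal.{u}) := fun t => ⟨ht t, hT.ht_lt t⟩
  have hcount : ∀ a, {t | h t < a}.Countable := by
    intro a
    have h1 : (Iio a.1).Countable := by
      rw [← le_aleph0_iff_set_countable, Cardinal.mk_Iio_ordinal]
      have := a.2
      rw [mem_Iio, lt_omega_iff_card_lt, ← succ_aleph0, Order.lt_succ_iff] at this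
      exact Cardinal.lift_le_aleph0.2 this
    refine (h1.biUnion fun ξ _ => hT.level_countable ξ).mono fun t htt => ?_
    simp only [mem_iUnion]
    exact ⟨ht t, htt, rfl⟩
  let ε : Iio (ω₁ : Ordinal.{u}) → (T → Option ℕ) → T := fun a x =>
    Classical.epsilon fun t => ht t = a.1 ∧ ∀ v < t, x v ≠ none
  let F : Iio (ω₁ : Ordinal.{u}) → (T → Option ℕ) → Bool := fun a x =>
    decide {ξ ∈ C a.1 | ξ < a.1 ∧ ∃ v < ε a x, ht v = ξ ∧ x v ≠ some 0}.Finite
  have key := Pool.Agent.P.MP_807794_lc.weak_diamond_fail hcof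
    (hcard.trans_le aleph_one_le_continuum) h hcount (R := Option ℕ)
    (by simpa using aleph0_le_continuum) F ?_ ?_
  · have h1 : (ℵ₁ : Cardinal.{u}) ≤ #T := by
      have hs : Function.Surjective h := fun a =>
        (hT.level_nonempty a.1 a.2).imp fun t htt => Subtype.ext htt
      have := lift_mk_le_lift_mk_of_surjective hs
      rw [hcard] at this
      simpa using this
    have h2 : #(T → Bool) = 2 ^ #T := by simp
    rw [h2, hCH] at key
    exact ((cantor _).trans_le key).not_ge h1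
  · intro a x y hxy
    have hε : ε a x = ε a y := by
      simp only [ε]
      congr 1
      funext t
      refine propext (and_congr_right fun hta => forall₂_congr fun v hv => ?_)
      rw [hxy v (show ht v < a.1 from hta ▸ ht_strictMono hv)]
    simp only [F, hε]
    congr 2
    ext ξ
    refine and_congr_right fun _ => and_congr_right fun hξ => exists_congr fun v =>
      and_congr_right fun _ => and_congr_right fun hv => ?_
    rw [hxy v (show ht v < a.1 from hv ▸ hξ)]
  · intro g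
    let f : Ordinal.{u} → Ordinal.{u} → ℕ := fun α _ =>
      if hα : α < ω₁ then (if g ⟨α, hα⟩ then 0 else 1) else 0
    obtain ⟨S, ⟨⟨s0, hs0⟩, hlow, hpr⟩, φ, hφ⟩ := hunif f fun α _ _ => ⟨f α 0, fun _ _ => rfl⟩
    have hanti : IsAntichain (· ≤ ·) {t : T | t ∉ S ∧ ∀ v < t, v ∈ S} :=
      fun a ha b hb hab hle => ha.1 (hb.2 a (lt_of_le_of_ne hle hab))
    obtain ⟨D, hD, hdisj⟩ := not_isStationary_iff.1 (hno _ hanti)
    let x : T → Option ℕ := fun v => if hv : v ∈ S then some (φ ⟨v, hv⟩) else none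
    refine ⟨x, _, hD.inter hcof isClub_limits, ?_⟩
    rintro a ⟨haD, halim⟩
    have hex : ∃ t, ht t = a.1 ∧ ∀ v < t, x v ≠ none := by
      obtain ⟨t, htS, -, hat⟩ := hpr s0 hs0 a.1 a.2
      have : ∃ s ∈ S, ht s = a.1 := by
        obtain hat | hat := hat.eq_or_lt
        · exact ⟨t, htS, hat.symm⟩
        · obtain ⟨v, hv, hva⟩ := exists_pred t _ hat
          exact ⟨v, hlow hv.le htS, hva⟩
      obtain ⟨s, hs, hsa⟩ := this
      refine ⟨s, hsa, fun v hv => ?_⟩
      simp [x, hlow hv.le hs]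
    obtain ⟨hta, htv⟩ : ht (ε a x) = a.1 ∧ ∀ v < ε a x, x v ≠ none := Classical.epsilon_spec hex
    have hbelow : ∀ v < ε a x, v ∈ S := fun v hv => by
      by_contra hvS
      exact htv v hv (by simp [x, hvS])
    have htS : ε a x ∈ S := by
      by_contra hS
      exact disjoint_left.1 hdisj ⟨_, ⟨hS, hbelow⟩, hta⟩ haD
    have hfin := hφ _ htS (hta ▸ halim)
    rw [hta] at hfin
    obtain ⟨hsub, -, ⟨iso⟩⟩ := hC a.1 a.2 halim
    have ha2 : a.1 < ω₁ := a.2
    cases hg : g a with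
    | true =>
      simp only [F, decide_eq_true_eq]
      refine hfin.subset ?_
      rintro ξ ⟨hξ, -, v, hv, hvξ, hx⟩
      refine ⟨hξ, ⟨v, hbelow v hv⟩, hv, hvξ, fun h0 => hx ?_⟩
      simp [x, hbelow v hv, h0, f, ha2, hg]
    | false =>
      simp only [F, decide_eq_false_iff_not]
      intro hfin'
      have hinf : (C a.1).Infinite := by
        rw [← infinite_coe_iff]
        exact Infinite.of_injective _ iso.symm.injective
      refine hinf ((hfin.union hfin').subset fun ξ hξ => ?_)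
      obtain ⟨v, hv, hvξ⟩ := exists_pred (ε a x) ξ (hta ▸ hsub hξ)
      by_cases h1 : φ ⟨v, hbelow v hv⟩ = 0
      · refine Or.inl ⟨hξ, ⟨v, hbelow v hv⟩, hv, hvξ, ?_⟩
        simp [h1, f, ha2, hg]
      · refine Or.inr ⟨hξ, hsub hξ, v, hv, hvξ, ?_⟩
        simp [x, hbelow v hv, h1]

end Pool.Agent.Results.MP_807794_lc.StationaryAntichain
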